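import Pool.Agent.H104.MC.Eqv
import Pool.Agent.H112R2.Gap

/-! # Convex progressions are covered by few proper progressions -/

set_option autoImplicit false

namespace Pool.Agent.Q248.GP

open Finset H112
open scoped Pointwise
open Pool.Agent.Y806.DF (Body lat)
open Q123.VP H104.MC

/-- the norm of a convex body -/
theorem body_norm {m : ℕ} {B : Set (Fin m → ℝ)} (hB : Body B) :
    ∃ N : Seminorm ℝ (Fin m → ℝ), LL N 1 = lat B ∧ ∀ r : ℝ, (LL N r).Finite := by
  obtain ⟨hconv, hcomp, ⟨x0, hx0⟩, hsymm⟩ := hB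
  have h0 : (0 : Fin m → ℝ) ∈ interior B := by
    have h1 : -x0 ∈ B := hsymm _ (interior_subset hx0)
    have h2 := hconv.openSegment_interior_self_subset_interior hx0 h1
    apply h2
    exact ⟨1 / 2, 1 / 2, by norm_num, by norm_num, by norm_num, by
      rw [← smul_add, add_neg_cancel, smul_zero]⟩
  have hnhds : B ∈ nhds (0 : Fin m → ℝ) := mem_interior_iff_mem_nhds.1 h0
  have hbal : Balanced ℝ B := (balanced_iff_neg_mem hconv).2 fun x hx => hsymm x hx
  let N : Seminorm ℝ (Fin m → ℝ) := gaugeSeminorm hbal hconv (absorbent_nhds_zero hnhds)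
  have hN : ∀ x, N x ≤ 1 ↔ x ∈ B := by
    intro x
    have h1 : N x = gauge B x := rfl
    rw [h1, gauge_le_one_iff_mem_closure hconv hnhds, hcomp.isClosed.closure_eq]
  refine ⟨N, ?_, fun r => ?_⟩
  · ext c
    exact hN _
  · obtain ⟨R, hR⟩ := hcomp.isBounded.subset_closedBall (0 : Fin m → ℝ)
    obtain ⟨s, hs⟩ : ∃ s : ℝ, s = max r 1 := ⟨_, rfl⟩
    have hs1 : 1 ≤ s := hs ▸ le_max_right _ _
    have hrs : r ≤ s := hs ▸ le_max_left _ _
    have hs0 : 0 < s := by linarith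
    apply (Set.finite_Icc (fun _ => -⌈s * |R|⌉ : Fin m → ℤ) (fun _ => ⌈s * |R|⌉)).subset
    intro c hc
    have hc' : N (fun i => (c i : ℝ)) ≤ s := le_trans hc hrs
    have h1 : (s⁻¹ • fun i => (c i : ℝ)) ∈ B := by
      rw [← hN, map_smul_eq_mul, Real.norm_eq_abs, abs_of_pos (inv_pos.2 hs0)]
      calc s⁻¹ * N (fun i => (c i : ℝ)) ≤ s⁻¹ * s := by gcongr
        _ = 1 := inv_mul_cancel₀ hs0.ne'
    have h3 := hR h1
    rw [mem_closedBall_zero_iff] at h3
    have h2 : ∀ i, |(c i : ℝ)| ≤ s * |R| := by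
      intro i
      have h4 := (norm_le_pi_norm (s⁻¹ • fun i => (c i : ℝ)) i).trans (h3.trans (le_abs_self R))
      rw [Pi.smul_apply, smul_eq_mul, norm_mul, Real.norm_eq_abs, Real.norm_eq_abs,
        abs_of_pos (inv_pos.2 hs0), inv_mul_le_iff₀ hs0] at h4
      exact h4
    rw [Set.mem_Icc]
    constructor
    · intro i
      have h3 := (abs_le.1 (h2 i)).1
      have h5 : (-⌈s * |R|⌉ : ℝ) ≤ c i := by
        have := Int.le_ceil (s * |R|)
        linarith
      exact_mod_cast h5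
    · intro i
      have h3 := (abs_le.1 (h2 i)).2
      have h5 : (c i : ℝ) ≤ (⌈s * |R|⌉ : ℝ) := h3.trans (Int.le_ceil _)
      exact_mod_cast h5

/-- the integer points of a convex body are covered by few translates of a box inside -/
theorem lat_gap {m : ℕ} {B : Set (Fin m → ℝ)} (hB : Body B) :
    ∃ (k : ℕ) (v : Fin k → (Fin m → ℤ)) (L : Fin k → ℕ) (Y : Finset (Fin m → ℤ)), k ≤ m ∧
      (∀ a b : Fin k → ℤ, ∑ i, a i • v i = ∑ i, b i • v i → a = b) ∧
      (∀ a : Fin k → ℤ, (∀ i, |a i| ≤ L i) → ∑ i, a i • v i ∈ lat B) ∧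
      ∏ i, (2 * L i + 1) ≤ (lat B).ncard ∧
      (Y.card : ℝ) ≤ (4 * m + 1) ^ m * (12 * m ^ 3) ^ m ∧
      ∀ z ∈ lat B, ∃ y ∈ Y, ∃ c : Fin k → ℤ, (∀ i, |c i| ≤ L i) ∧ z = y + ∑ i, c i • v i := by
  classical
  obtain ⟨N, hN1, hfin⟩ := body_norm hB
  obtain ⟨k, v', L, hkm, hlin, hgap, hcard⟩ := discrete_john N zero_le_one (hfin 1)
  rw [← hN1]
  have hlin' : ∀ a b : Fin k → ℤ, ∑ i, a i • v' i = ∑ i, b i • v' i → a = b := by
    intro a b hab
    have h0 : ∑ i, (a i - b i) • v' i = 0 := by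
      simp only [sub_smul, Finset.sum_sub_distrib]
      rw [hab, sub_self]
    have := Fintype.linearIndependent_iff.1 hlin (fun i => a i - b i) h0
    funext i
    exact sub_eq_zero.1 (this i)
  have hprod : ∏ i, (2 * L i + 1) ≤ (LL N 1).ncard := by
    rw [← gap_card_box]
    have himg : ((fun a : Fin k → ℤ => ∑ i, a i • v' i) '' (gapBox L : Set (Fin k → ℤ)))
        ⊆ LL N 1 := by
      rintro _ ⟨a, ha, rfl⟩
      exact hgap a (gap_mem_box.1 ha)
    have hc := Set.ncard_le_ncard himg (hfin 1)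
    rw [Set.ncard_image_of_injective _ (fun a b h => hlin' a b h), Set.ncard_coe_finset] at hc
    exact hc
  set f : (Fin k → ℤ) → (Fin m → ℤ) := fun a => ∑ i, a i • v' i with hf
  set L' : Fin k → ℕ := fun i => L i / 2 with hL'
  set Q : Finset (Fin m → ℤ) := (gapBox L').image f with hQ
  have hL'L : ∀ i, L' i ≤ L i := fun i => Nat.div_le_self _ _
  have hQcard : Q.card = ∏ i, (2 * L' i + 1) := by
    rw [← gap_card_box, hQ, Finset.card_image_of_injective _ (fun a b h => hlin' a b h)]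
  have hQpos : Q.Nonempty := by
    rw [← Finset.card_pos, hQcard]
    exact Finset.prod_pos fun i _ => by omega
  have hQge : (∏ i, (2 * L i + 1) : ℕ) ≤ 3 ^ k * Q.card := by
    rw [hQcard]
    calc (∏ i, (2 * L i + 1) : ℕ) ≤ ∏ i, (3 * (2 * L' i + 1)) :=
          Finset.prod_le_prod' fun i _ => by
            have : L i / 2 = L' i := rfl
            omega
      _ = 3 ^ k * ∏ i, (2 * L' i + 1) := by
          rw [Finset.prod_mul_distrib, Finset.prod_const, Finset.card_univ, Fintype.card_fin]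
  set C : Finset (Fin m → ℤ) := (hfin 1).toFinset with hC
  have hCmem : ∀ z, z ∈ C ↔ z ∈ LL N 1 := by
    intro z
    rw [hC, Set.Finite.mem_toFinset]
  have hCQ : (C + Q).card ≤ (LL N 2).ncard := by
    have hsub : ((C + Q : Finset (Fin m → ℤ)) : Set (Fin m → ℤ)) ⊆ LL N 2 := by
      intro z hz
      obtain ⟨b, hb, q, hq, rfl⟩ := Finset.mem_add.1 hz
      obtain ⟨a, ha, rfl⟩ := Finset.mem_image.1 hq
      have h1 : f a ∈ LL N 1 := hgap a fun i =>
        (gap_mem_box.1 ha i).trans (by exact_mod_cast hL'L i)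
      have := gap_LL_add N ((hCmem b).1 hb) h1
      have e : (1 : ℝ) + 1 = 2 := by norm_num
      rwa [e] at this
    calc (C + Q).card = ((C + Q : Finset (Fin m → ℤ)) : Set (Fin m → ℤ)).ncard :=
          (Set.ncard_coe_finset _).symm
      _ ≤ (LL N 2).ncard := Set.ncard_le_ncard hsub (hfin 2)
  have hkey1 : ((LL N 1).ncard : ℝ) ≤ (12 * (m : ℝ) ^ 3) ^ m * Q.card := by
    have hc1 : ((LL N 1).ncard : ℝ) ≤ (4 * (k : ℝ) ^ 3) ^ k * (3 ^ k * Q.card) := by
      calc ((LL N 1).ncard : ℝ) ≤ (((4 * k ^ 3) ^ k * ∏ i, (2 * L i + 1) : ℕ) : ℝ) := by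
            exact_mod_cast hcard
        _ ≤ (((4 * k ^ 3) ^ k * (3 ^ k * Q.card) : ℕ) : ℝ) := by
            exact_mod_cast Nat.mul_le_mul_left _ hQge
        _ = (4 * (k : ℝ) ^ 3) ^ k * (3 ^ k * Q.card) := by push_cast; ring
    calc ((LL N 1).ncard : ℝ) ≤ (4 * (k : ℝ) ^ 3) ^ k * (3 ^ k * Q.card) := hc1
      _ = (12 * (k : ℝ) ^ 3) ^ k * Q.card := by
          rw [← mul_assoc, ← mul_pow]
          ring_nf
      _ ≤ (12 * (m : ℝ) ^ 3) ^ m * Q.card := by
          have := gap_pow_le hkm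
          gcongr
  have hdbl : ((LL N 2).ncard : ℝ) ≤ (4 * (m : ℝ) + 1) ^ m * (LL N 1).ncard := by
    have h := doubling N (r := 2) (by norm_num) (hfin 2)
    rw [show (2 : ℝ) / 2 = 1 by norm_num] at h
    exact_mod_cast h
  have hM1 : (0 : ℝ) ≤ (4 * (m : ℝ) + 1) ^ m := by positivity
  have hK : (((C + Q).card : ℕ) : ℝ) ≤
      ((4 * (m : ℝ) + 1) ^ m * (12 * (m : ℝ) ^ 3) ^ m) * Q.card := by
    calc (((C + Q).card : ℕ) : ℝ) ≤ (LL N 2).ncard := by exact_mod_cast hCQ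
      _ ≤ (4 * (m : ℝ) + 1) ^ m * (LL N 1).ncard := hdbl
      _ ≤ (4 * (m : ℝ) + 1) ^ m * ((12 * (m : ℝ) ^ 3) ^ m * Q.card) :=
          mul_le_mul_of_nonneg_left hkey1 hM1
      _ = _ := by ring
  obtain ⟨Y, hYB, hYcard, hYcov⟩ := Finset.ruzsa_covering_add hQpos hK
  refine ⟨k, v', L, Y, hkm, hlin', hgap, hprod, hYcard, ?_⟩
  intro z hz
  obtain ⟨y, hy, d, hd, hyd⟩ := Finset.mem_add.1 (hYcov ((hCmem z).2 hz))
  obtain ⟨q, hq, q', hq', hqq⟩ := Finset.mem_sub.1 hd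
  obtain ⟨c, hc, rfl⟩ := Finset.mem_image.1 hq
  obtain ⟨c', hc', rfl⟩ := Finset.mem_image.1 hq'
  refine ⟨y, hy, fun i => c i - c' i, fun i => ?_, ?_⟩
  · have h3 := gap_mem_box.1 hc i
    have h4 := gap_mem_box.1 hc' i
    have h5 : (L' i : ℤ) + L' i ≤ L i := by
      have : L i / 2 = L' i := rfl
      omega
    calc |c i - c' i| ≤ |c i| + |c' i| := abs_sub _ _
      _ ≤ L i := by linarith
  · have : ∑ i, (c i - c' i) • v' i = f c - f c' := by
      simp only [hf, sub_smul, Finset.sum_sub_distrib]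
    rw [this, hqq, hyd]

variable {G : Type*} [AddCommGroup G] [DecidableEq G]

/-- **Convex progressions, as improper as one likes, are covered by few proper progressions.** -/
theorem conv_gap {n : ℕ} {B : Set (Fin n → ℝ)} (hB : Body B) (ψ : (Fin n → ℤ) →+ G) {V : ℝ}
    (hV : 1 ≤ V) :
    ∃ (k : ℕ) (v : Fin k → G) (N : Fin k → ℕ) (X : Finset G), k ≤ n ∧ (∀ i, 1 ≤ N i) ∧
      (∀ a b : Fin k → ℕ, (∀ i, a i < N i) → (∀ i, b i < N i) →
        ∑ i, a i • v i = ∑ i, b i • v i → a = b) ∧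
      ((∏ i, N i : ℕ) : ℝ) ≤ V ∧
      (X.card : ℝ) ≤ (2 * 10 ^ 8) ^ n * max 1 ((ψ '' lat B).ncard / V) *
        ((4 * n + 1) ^ n * (12 * n ^ 3) ^ n) ∧
      ∀ z ∈ lat B, ∃ x ∈ X, ∃ c : Fin k → ℕ, (∀ i, c i < N i) ∧ ψ z = x + ∑ i, c i • v i := by
  classical
  have hbot : (Nat.card (⊥ : AddSubgroup G) : ℝ) = 1 := by simp
  obtain ⟨B', F, hB', hinj, hvol, hF, hcov⟩ := conv_cover hB ψ (⊥ : AddSubgroup G) (N := V)
    (by rw [hbot]; exact hV)
  rw [hbot, mul_one] at hvol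
  have himg : img ψ (⊥ : AddSubgroup G) (lat B) = ψ '' lat B := by
    ext g
    constructor
    · rintro ⟨x, hx, h, hh, rfl⟩
      rw [AddSubgroup.mem_bot] at hh
      exact ⟨x, hx, by rw [hh, add_zero]⟩
    · rintro ⟨x, hx, rfl⟩
      exact ⟨x, hx, 0, AddSubgroup.zero_mem _, by rw [add_zero]⟩
  rw [himg] at hF hcov
  have hinj' : Set.InjOn ψ (lat B') := by
    intro x hx y hy hxy
    have h1 : ((x, 0) : (Fin n → ℤ) × G) = (y, 0) :=
      hinj ⟨hx, AddSubgroup.zero_mem _⟩ ⟨hy, AddSubgroup.zero_mem _⟩ (by simpa using hxy)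
    exact congrArg Prod.fst h1
  obtain ⟨k, w, L, Y, hk, hlin, hgap, hprod, hY, hYcov⟩ := lat_gap hB'
  have hsum : ∀ x : Fin k → ℤ, ψ (∑ i, x i • w i) = ∑ i, x i • ψ (w i) := by
    intro x
    rw [map_sum]
    simp only [map_zsmul]
  have hproper : ∀ a b : Fin k → ℤ, (∀ i, |a i| ≤ L i) → (∀ i, |b i| ≤ L i) →
        ∑ i, a i • ψ (w i) = ∑ i, b i • ψ (w i) → a = b := by
    intro a b ha hb hab
    rw [← hsum, ← hsum] at hab
    exact hlin a b (hinj' (hgap a ha) (hgap b hb) hab)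
  have hshift : ∀ m : Fin k → ℕ, ∑ i, m i • ψ (w i) =
      ∑ i, ((m i : ℤ) - L i) • ψ (w i) + ∑ i, (L i) • ψ (w i) := by
    intro m
    rw [← Finset.sum_add_distrib]
    apply Finset.sum_congr rfl
    intro i _
    rw [sub_smul, natCast_zsmul, natCast_zsmul, sub_add_cancel]
  refine ⟨k, fun i => ψ (w i), fun i => 2 * L i + 1,
    (F ×ˢ Y).image fun p => p.1 + ψ p.2 - ∑ i, L i • ψ (w i), hk,
    fun i => Nat.le_add_left 1 _, ?_, ?_, ?_, ?_⟩
  · intro m n hm hn h
    rw [hshift m, hshift n] at h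
    have h2 := hproper (fun i => (m i : ℤ) - L i) (fun i => (n i : ℤ) - L i)
      (fun i => by
        have h5 : m i < 2 * L i + 1 := hm i
        rw [abs_le]; constructor <;> omega)
      (fun i => by
        have h5 : n i < 2 * L i + 1 := hn i
        rw [abs_le]; constructor <;> omega)
      (add_right_cancel h)
    funext i
    have h3 : (m i : ℤ) - L i = (n i : ℤ) - L i := congrFun h2 i
    omega
  · refine le_trans ?_ hvol
    exact_mod_cast hprod
  · have h1 : (((F ×ˢ Y).image fun p => p.1 + ψ p.2 - ∑ i, L i • ψ (w i)).card : ℝ)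
        ≤ F.card * Y.card := by
      have : ((F ×ˢ Y).image fun p => p.1 + ψ p.2 - ∑ i, L i • ψ (w i)).card
          ≤ F.card * Y.card := by
        refine Finset.card_image_le.trans ?_
        rw [Finset.card_product]
      exact_mod_cast this
    refine h1.trans (mul_le_mul hF hY (Nat.cast_nonneg _) ?_)
    have : (1 : ℝ) ≤ max 1 (((ψ '' lat B).ncard : ℝ) / V) := le_max_left _ _
    positivity
  · intro z hz
    obtain ⟨f, hf, u, hu, h, hh, e⟩ := hcov (ψ z) ⟨z, hz, rfl⟩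
    rw [AddSubgroup.mem_bot] at hh
    obtain ⟨y, hy, c, hc, e2⟩ := hYcov u hu
    refine ⟨_, Finset.mem_image_of_mem _ (Finset.mem_product.mpr ⟨hf, hy⟩ : (f, y) ∈ F ×ˢ Y),
      fun i => (c i + L i).toNat, ?_, ?_⟩
    · intro i
      have h5 := abs_le.1 (hc i)
      show (c i + L i).toNat < 2 * L i + 1
      omega
    · rw [hshift fun i => (c i + L i).toNat, e, e2, hh, map_add, hsum]
      have h4 : ∀ i, (((c i + L i).toNat : ℤ) - L i) = c i := by
        intro i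
        have h5 := abs_le.1 (hc i)
        omega
      have h6 : ∑ i, (((c i + L i).toNat : ℤ) - L i) • ψ (w i) = ∑ i, c i • ψ (w i) :=
        Finset.sum_congr rfl fun i _ => by rw [h4 i]
      rw [h6]
      abel

end Pool.Agent.Q248.GP
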