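import Pool.Agent.Q130.HE.Fin
import Pool.Agent.Q248.GP.B

/-! # Many summands: from convex progressions to proper progressions -/

set_option autoImplicit false

namespace Pool.Agent.Q248.GP

open Finset
open scoped Pointwise
open Pool.Agent.TH198.DC (SB LP rv)

/-- the exponent -/
noncomputable def expo (K : ℝ) (m : ℕ) : ℝ :=
  10 ^ 9 * (1 + Real.log (1 + Real.log (2 * K)) / Real.log m)

/-- the number of translates needed for one convex progression -/
theorem num_gap {K : ℝ} (hK : 1 ≤ K) {m : ℕ} (hm : 2 ≤ m) {d : ℕ}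
    (hd : (d : ℝ) ≤ 330000 * (1 + Real.log K / Real.log m)) :
    (2 * 10 ^ 8 : ℝ) ^ d * 1 * ((4 * d + 1) ^ d * (12 * d ^ 3) ^ d) ≤ (2 * K) ^ expo K m := by
  obtain ⟨κ, hκ⟩ : ∃ κ : ℝ, κ = Real.log (2 * K) := ⟨_, rfl⟩
  obtain ⟨ℓ, hℓ⟩ : ∃ ℓ : ℝ, ℓ = Real.log m := ⟨_, rfl⟩
  have hm0 : (2 : ℝ) ≤ m := by exact_mod_cast hm
  have hl2 := Real.log_two_gt_d9
  have hℓ2 : 0.69 ≤ ℓ := by
    rw [hℓ]
    have := Real.log_le_log (by norm_num : (0:ℝ) < 2) hm0
    linarith
  have hκ2 : 0.69 ≤ κ := by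
    rw [hκ]
    have := Real.log_le_log (by norm_num : (0:ℝ) < 2) (by linarith : (2:ℝ) ≤ 2 * K)
    linarith
  have hlogK : Real.log K ≤ κ := by
    rw [hκ]
    exact Real.log_le_log (by linarith) (by linarith)
  have hlogK0 : 0 ≤ Real.log K := Real.log_nonneg hK
  have h2K : 0 < 2 * K := by linarith
  unfold expo
  rw [Real.rpow_def_of_pos h2K, ← hκ, ← hℓ]
  have hlog1 : 0 ≤ Real.log (1 + κ) := Real.log_nonneg (by linarith)
  have hlog1κ : Real.log (1 + κ) ≤ κ := by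
    have := Real.log_le_sub_one_of_pos (by linarith : 0 < 1 + κ)
    linarith
  have hk : (d : ℝ) ≤ 330000 * (1 + κ / ℓ) := by
    have h2 : Real.log K / Real.log m ≤ κ / ℓ := by
      rw [← hℓ]
      exact div_le_div_of_nonneg_right hlogK (by linarith)
    linarith
  rcases Nat.eq_zero_or_pos d with h0 | hpos
  · subst h0
    simp only [pow_zero, mul_one]
    exact Real.one_le_exp (by positivity)
  have hk0 : (0 : ℝ) < d := by exact_mod_cast hpos
  have hk1 : (1 : ℝ) ≤ d := by exact_mod_cast hpos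
  have hstep : (2 * 10 ^ 8 : ℝ) ^ d * 1 * ((4 * d + 1) ^ d * (12 * d ^ 3) ^ d) ≤
      (12 * 10 ^ 9 * (d : ℝ) ^ 4) ^ d := by
    rw [mul_one, ← mul_pow, ← mul_pow]
    apply pow_le_pow_left₀ (by positivity)
    have h3 : (0 : ℝ) ≤ (d : ℝ) ^ 3 := by positivity
    have h4 : (4 * (d : ℝ) + 1) ≤ 5 * d := by linarith
    calc (2 * 10 ^ 8 : ℝ) * ((4 * d + 1) * (12 * d ^ 3))
        ≤ (2 * 10 ^ 8 : ℝ) * ((5 * d) * (12 * d ^ 3)) := by gcongr
      _ = _ := by ring
  refine hstep.trans ?_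
  have hlog12 : Real.log (12 * 10 ^ 9) ≤ 24 := by
    have h1 : Real.log (12 * 10 ^ 9) ≤ Real.log (2 ^ 34) :=
      Real.log_le_log (by norm_num) (by norm_num)
    rw [Real.log_pow] at h1
    have := Real.log_two_lt_d9
    push_cast at h1
    linarith
  have hlog33 : Real.log 330000 ≤ 13.2 := by
    have h1 : Real.log 330000 ≤ Real.log (2 ^ 19) :=
      Real.log_le_log (by norm_num) (by norm_num)
    rw [Real.log_pow] at h1
    have := Real.log_two_lt_d9
    push_cast at h1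
    linarith
  have hlogk : Real.log d ≤ 13.2 + (1 + Real.log (1 + κ)) := by
    have h1 : Real.log d ≤ Real.log (330000 * (1 + κ / ℓ)) := Real.log_le_log hk0 hk
    rw [Real.log_mul (by norm_num) (by positivity)] at h1
    have h2 : 1 + κ / ℓ ≤ 2 * (1 + κ) := by
      have : κ / ℓ ≤ κ / 0.69 := div_le_div_of_nonneg_left (by linarith) (by norm_num) hℓ2
      have h3 : κ / 0.69 ≤ 1.5 * κ := by
        rw [div_le_iff₀ (by norm_num)]
        linarith
      linarith
    have h3 : Real.log (1 + κ / ℓ) ≤ Real.log (2 * (1 + κ)) := Real.log_le_log (by positivity) h2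
    rw [Real.log_mul (by norm_num) (by linarith)] at h3
    have := Real.log_two_lt_d9
    linarith
  have hlog : Real.log (12 * 10 ^ 9 * (d : ℝ) ^ 4) ≤ 90 + 6 * Real.log (1 + κ) := by
    rw [Real.log_mul (by norm_num) (by positivity), Real.log_pow]
    push_cast
    linarith
  have hpos2 : 0 < 12 * 10 ^ 9 * (d : ℝ) ^ 4 := by positivity
  calc (12 * 10 ^ 9 * (d : ℝ) ^ 4) ^ d = Real.exp (d * Real.log (12 * 10 ^ 9 * (d : ℝ) ^ 4)) := by
        rw [Real.exp_nat_mul, Real.exp_log hpos2]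
    _ ≤ _ := by
        apply Real.exp_le_exp.2
        have e1 : (d : ℝ) * Real.log (12 * 10 ^ 9 * (d : ℝ) ^ 4) ≤
            (330000 * (1 + κ / ℓ)) * (90 + 6 * Real.log (1 + κ)) := by
          have : 0 ≤ 90 + 6 * Real.log (1 + κ) := by positivity
          calc (d : ℝ) * Real.log (12 * 10 ^ 9 * (d : ℝ) ^ 4) ≤ d * (90 + 6 * Real.log (1 + κ)) :=
                mul_le_mul_of_nonneg_left hlog hk0.le
            _ ≤ _ := mul_le_mul_of_nonneg_right hk this
        have e2 : κ / ℓ ≤ 1.5 * κ := by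
          have : κ / ℓ ≤ κ / 0.69 := div_le_div_of_nonneg_left (by linarith) (by norm_num) hℓ2
          have h3 : κ / 0.69 ≤ 1.5 * κ := by
            rw [div_le_iff₀ (by norm_num)]
            linarith
          linarith
        have e3 : κ / ℓ * Real.log (1 + κ) = κ * (Real.log (1 + κ) / ℓ) := by ring
        have e5 : 0 ≤ κ * (Real.log (1 + κ) / ℓ) := by positivity
        have e4 : (1 + κ / ℓ) * (90 + 6 * Real.log (1 + κ)) ≤
            300 * (κ * (1 + Real.log (1 + κ) / ℓ)) := by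
          nlinarith
        calc _ ≤ _ := e1
          _ = 330000 * ((1 + κ / ℓ) * (90 + 6 * Real.log (1 + κ))) := by ring
          _ ≤ 330000 * (300 * (κ * (1 + Real.log (1 + κ) / ℓ))) := by
              apply mul_le_mul_of_nonneg_left e4 (by norm_num)
          _ ≤ κ * (10 ^ 9 * (1 + Real.log (1 + κ) / ℓ)) := by
              nlinarith

/-- pigeonhole -/
theorem cover_pigeonhole {G : Type*} [DecidableEq G] {A T : Finset G} (hA : A.Nonempty)
    (P : G → G → Prop) [∀ t, DecidablePred (P t)] (hcov : ∀ a ∈ A, ∃ t ∈ T, P t a) :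
    ∃ t ∈ T, A.card ≤ T.card * (A.filter (P t)).card := by
  by_contra hcon
  push Not at hcon
  have h1 : A ⊆ T.biUnion fun t => A.filter (P t) := by
    intro a ha
    obtain ⟨t, ht, h⟩ := hcov a ha
    exact Finset.mem_biUnion.2 ⟨t, ht, Finset.mem_filter.2 ⟨ha, h⟩⟩
  have hTne : T.Nonempty := by
    obtain ⟨a, ha⟩ := hA
    obtain ⟨t, ht, _⟩ := hcov a ha
    exact ⟨t, ht⟩
  have h2 : A.card ≤ ∑ t ∈ T, (A.filter (P t)).card :=
    (Finset.card_le_card h1).trans Finset.card_biUnion_le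
  have h3 : ∑ t ∈ T, T.card * (A.filter (P t)).card < ∑ _t ∈ T, A.card :=
    Finset.sum_lt_sum_of_nonempty hTne hcon
  rw [← Finset.mul_sum, Finset.sum_const, smul_eq_mul] at h3
  have h4 : T.card * A.card ≤ T.card * ∑ t ∈ T, (A.filter (P t)).card :=
    Nat.mul_le_mul_left _ h2
  omega

variable {G : Type*} [AddCommGroup G] [DecidableEq G]

/-- a convex progression of small dimension and size is covered by few proper progressions -/
theorem gap_of_body {K : ℝ} (hK : 1 ≤ K) {m : ℕ} (hm : 2 ≤ m) {d : ℕ}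
    (hd : (d : ℝ) ≤ 330000 * (1 + Real.log K / Real.log m)) {B : Set (Fin d → ℝ)} (hB : SB B)
    (ψ : (Fin d → ℤ) →+ G) {V : ℕ} (hV : 1 ≤ V) (hvol : (LP B).ncard ≤ V) :
    ∃ (k : ℕ) (v : Fin k → G) (N : Fin k → ℕ) (X : Finset G),
      (k : ℝ) ≤ 330000 * (1 + Real.log K / Real.log m) ∧ (∀ i, 1 ≤ N i) ∧
      (∀ a b : Fin k → ℕ, (∀ i, a i < N i) → (∀ i, b i < N i) →
        ∑ i, a i • v i = ∑ i, b i • v i → a = b) ∧
      ∏ i, N i ≤ V ∧ (X.card : ℝ) ≤ (2 * K) ^ expo K m ∧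
      ∀ z ∈ LP B, ∃ x ∈ X, ∃ c : Fin k → ℕ, (∀ i, c i < N i) ∧ ψ z = x + ∑ i, c i • v i := by
  obtain ⟨k, v, N, X, hk, hN, hprop, hNV, hX, hcov⟩ :=
    conv_gap (B := B) ⟨hB.conv, hB.comp, hB.inter, hB.symm⟩ ψ (V := V) (by exact_mod_cast hV)
  have hV0 : (0 : ℝ) < V := by exact_mod_cast hV
  have hfin : (LP B).Finite := Pool.Agent.TH198.DC.LP_finite hB.comp.isBounded
  have hmax : max 1 (((ψ '' Pool.Agent.Y806.DF.lat B).ncard : ℝ) / V) = 1 := by
    apply max_eq_left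
    rw [div_le_one hV0]
    have h1 : (ψ '' LP B).ncard ≤ V := (Set.ncard_image_le hfin).trans hvol
    exact_mod_cast h1
  rw [hmax] at hX
  exact ⟨k, v, N, X, le_trans (by exact_mod_cast hk) hd, hN, hprop, by exact_mod_cast hNV,
    hX.trans (num_gap hK hm hd), hcov⟩

end Pool.Agent.Q248.GP
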