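import Mathlib

/-! # Random sublattices of `ℤ ^ d` and progressions in iterated sumsets -/

set_option autoImplicit false

namespace Pool.Agent.Q248.GP.Neg

open Finset
open scoped Pointwise

/-- the sum of the absolute values of the coordinates -/
def l1 {d : ℕ} (x : Fin d → ℤ) : ℕ := ∑ i, (x i).natAbs

/-- integer points of the cross-polytope -/
noncomputable def cross (d T : ℕ) : Finset (Fin d → ℤ) :=
  (Fintype.piFinset fun _ : Fin d => Icc (-(T : ℤ)) T).filter fun x => l1 x ≤ T

theorem mem_cross {d T : ℕ} {x : Fin d → ℤ} : x ∈ cross d T ↔ l1 x ≤ T := by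
  unfold cross
  rw [mem_filter, Fintype.mem_piFinset]
  constructor
  · exact fun h => h.2
  · intro h
    refine ⟨fun i => ?_, h⟩
    have h1 : (x i).natAbs ≤ T := by
      refine le_trans ?_ h
      exact single_le_sum (f := fun i => (x i).natAbs) (fun i _ => Nat.zero_le _) (mem_univ i)
    rw [mem_Icc]
    omega

/-- geometric sum over an interval -/
theorem sum_geom {t : ℝ} (h0 : 0 ≤ t) (h1 : t < 1) (T : ℕ) :
    ∑ s ∈ Icc (-(T : ℤ)) T, t ^ s.natAbs ≤ 2 / (1 - t) := by
  have hsub : Icc (-(T : ℤ)) T ⊆ (range (T + 1)).image (fun j : ℕ => (j : ℤ)) ∪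
      (range (T + 1)).image (fun j : ℕ => -(j : ℤ)) := by
    intro s hs
    rw [mem_Icc] at hs
    rw [mem_union, mem_image, mem_image]
    rcases le_total 0 s with h | h
    · exact Or.inl ⟨s.toNat, by rw [mem_range]; omega, by omega⟩
    · exact Or.inr ⟨(-s).toNat, by rw [mem_range]; omega, by omega⟩
  have hg : ∑ j ∈ range (T + 1), t ^ j ≤ 1 / (1 - t) := by
    rw [geom_sum_eq (by linarith), ← neg_div_neg_eq]
    apply div_le_div_of_nonneg_right _ (by linarith) |>.trans_eq
    · rw [show -(t - 1) = 1 - t by ring]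
    · have : 0 ≤ t ^ (T + 1) := by positivity
      linarith
  have h2 : ∑ s ∈ (range (T + 1)).image (fun j : ℕ => (j : ℤ)), t ^ s.natAbs ≤
      ∑ j ∈ range (T + 1), t ^ j := by
    rw [sum_image (fun a _ b _ h => by exact_mod_cast h)]
    simp
  have h3 : ∑ s ∈ (range (T + 1)).image (fun j : ℕ => -(j : ℤ)), t ^ s.natAbs ≤
      ∑ j ∈ range (T + 1), t ^ j := by
    rw [sum_image (fun a _ b _ h => by
      have : (a : ℤ) = b := neg_injective h
      exact_mod_cast this)]
    simp
  calc ∑ s ∈ Icc (-(T : ℤ)) T, t ^ s.natAbs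
      ≤ ∑ s ∈ (range (T + 1)).image (fun j : ℕ => (j : ℤ)) ∪
          (range (T + 1)).image (fun j : ℕ => -(j : ℤ)), t ^ s.natAbs :=
        sum_le_sum_of_subset_of_nonneg hsub (fun s _ _ => by positivity)
    _ ≤ ∑ s ∈ (range (T + 1)).image (fun j : ℕ => (j : ℤ)), t ^ s.natAbs +
          ∑ s ∈ (range (T + 1)).image (fun j : ℕ => -(j : ℤ)), t ^ s.natAbs := by
        rw [← sum_union_inter]
        have : 0 ≤ ∑ s ∈ (range (T + 1)).image (fun j : ℕ => (j : ℤ)) ∩
          (range (T + 1)).image (fun j : ℕ => -(j : ℤ)), t ^ s.natAbs :=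
          sum_nonneg (fun s _ => by positivity)
        linarith
    _ ≤ 1 / (1 - t) + 1 / (1 - t) := by linarith
    _ = 2 / (1 - t) := by ring

/-- the number of integer points of the cross-polytope -/
theorem card_cross {d T : ℕ} (hd : 1 ≤ d) (hT : d ≤ T) :
    ((cross d T).card : ℝ) ≤ (Real.exp 1 * (4 * T / d)) ^ d := by
  have hd0 : (0 : ℝ) < d := by exact_mod_cast hd
  have hT0 : (0 : ℝ) < T := by
    have : (d : ℝ) ≤ T := by exact_mod_cast hT
    linarith
  have hdT : (d : ℝ) ≤ T := by exact_mod_cast hT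
  obtain ⟨t, ht⟩ : ∃ t : ℝ, t = T / (T + d) := ⟨_, rfl⟩
  have ht0 : 0 < t := by rw [ht]; positivity
  have ht1 : t < 1 := by rw [ht, div_lt_one (by positivity)]; linarith
  have h1t : 1 - t = d / (T + d) := by
    rw [ht, eq_div_iff (by positivity), sub_mul, div_mul_cancel₀ _ (by positivity)]
    ring
  have h1 : ((cross d T).card : ℝ) * t ^ T ≤ (2 / (1 - t)) ^ d := by
    calc ((cross d T).card : ℝ) * t ^ T = ∑ _x ∈ cross d T, t ^ T := by
          rw [sum_const, nsmul_eq_mul]
      _ ≤ ∑ x ∈ cross d T, t ^ l1 x :=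
          sum_le_sum (fun x hx => pow_le_pow_of_le_one ht0.le ht1.le (mem_cross.1 hx))
      _ ≤ ∑ x ∈ Fintype.piFinset fun _ : Fin d => Icc (-(T : ℤ)) T, t ^ l1 x :=
          sum_le_sum_of_subset_of_nonneg (filter_subset _ _) (fun x _ _ => by positivity)
      _ = ∏ _i : Fin d, ∑ s ∈ Icc (-(T : ℤ)) T, t ^ s.natAbs := by
          rw [prod_univ_sum]
          refine sum_congr rfl (fun x _ => ?_)
          unfold l1
          rw [prod_pow_eq_pow_sum]
      _ ≤ ∏ _i : Fin d, 2 / (1 - t) :=
          prod_le_prod (fun _ _ => sum_nonneg (fun _ _ => by positivity))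
            (fun _ _ => sum_geom ht0.le ht1 T)
      _ = _ := by rw [prod_const, card_univ, Fintype.card_fin]
  have h2 : Real.exp (-(d : ℝ)) ≤ t ^ T := by
    have h3 : -((d : ℝ) / T) ≤ Real.log t := by
      have h4 : Real.log t = - Real.log (1 + d / T) := by
        rw [ht, ← Real.log_inv]
        congr 1
        field_simp
      rw [h4]
      have := Real.log_le_sub_one_of_pos (show (0:ℝ) < 1 + d / T by positivity)
      linarith
    rw [← Real.rpow_natCast, Real.rpow_def_of_pos ht0]
    apply Real.exp_le_exp.2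
    calc -(d : ℝ) = -((d : ℝ) / T) * T := by field_simp
      _ ≤ Real.log t * T := mul_le_mul_of_nonneg_right h3 hT0.le
  have h5 : 2 / (1 - t) ≤ 4 * T / d := by
    rw [h1t, div_div_eq_mul_div]
    apply div_le_div_of_nonneg_right _ hd0.le
    linarith
  have h6 : 0 ≤ 2 / (1 - t) := by
    have : 0 < 1 - t := by linarith
    positivity
  have h7 : ((cross d T).card : ℝ) * Real.exp (-(d : ℝ)) ≤ (4 * T / d) ^ d := by
    calc ((cross d T).card : ℝ) * Real.exp (-(d : ℝ)) ≤ ((cross d T).card : ℝ) * t ^ T :=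
          mul_le_mul_of_nonneg_left h2 (Nat.cast_nonneg _)
      _ ≤ (2 / (1 - t)) ^ d := h1
      _ ≤ (4 * T / d) ^ d := pow_le_pow_left₀ h6 h5 d
  calc ((cross d T).card : ℝ)
      = ((cross d T).card : ℝ) * Real.exp (-(d : ℝ)) * Real.exp d := by
        rw [mul_assoc, ← Real.exp_add, neg_add_cancel, Real.exp_zero, mul_one]
    _ ≤ (4 * T / d) ^ d * Real.exp d := mul_le_mul_of_nonneg_right h7 (Real.exp_pos _).le
    _ = _ := by
        rw [mul_pow, ← Real.exp_nat_mul, mul_one, mul_comm]

theorem lt_card_cross {d T : ℕ} (hd : 1 ≤ d) : T < (cross d T).card := by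
  classical
  have h : ((range (T + 1)).image fun s : ℕ =>
      (Pi.single (⟨0, hd⟩ : Fin d) (s : ℤ) : Fin d → ℤ)) ⊆ cross d T := by
    intro x hx
    obtain ⟨s, hs, rfl⟩ := mem_image.1 hx
    rw [mem_range] at hs
    rw [mem_cross]
    unfold l1
    rw [sum_eq_single (⟨0, hd⟩ : Fin d)]
    · rw [Pi.single_eq_same]
      omega
    · intro b _ hb
      rw [Pi.single_eq_of_ne hb]
      rfl
    · intro h; exact absurd (mem_univ _) h
  have h2 := card_le_card h
  rw [card_image_of_injective, card_range] at h2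
  · omega
  · intro a b hab
    have := congrFun hab (⟨0, hd⟩ : Fin d)
    simp only [Pi.single_eq_same] at this
    exact_mod_cast this

/-- the number of linear forms modulo `p` that vanish at a given vector -/
theorem card_forms {p : ℕ} [Fact p.Prime] {d : ℕ} (x : Fin d → ZMod p) (hx : x ≠ 0) :
    ((univ : Finset (Fin d → ZMod p)).filter fun a => ∑ i, a i * x i = 0).card ≤ p ^ (d - 1) := by
  classical
  obtain ⟨j, hj⟩ : ∃ j, x j ≠ 0 := by
    by_contra h
    push Not at h
    exact hx (funext h)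
  have h1 : ((univ : Finset (Fin d → ZMod p)).filter fun a => ∑ i, a i * x i = 0).card ≤
      (univ : Finset ({i : Fin d // i ≠ j} → ZMod p)).card := by
    apply card_le_card_of_injOn (fun a => fun i => a i.1) (fun a _ => mem_univ _)
    intro a ha b hb hab
    rw [mem_coe, mem_filter] at ha hb
    have hne : ∀ i, i ≠ j → a i = b i := fun i hi => congrFun hab ⟨i, hi⟩
    have h2 : ∑ i, (a i - b i) * x i = 0 := by
      simp only [sub_mul, sum_sub_distrib, ha.2, hb.2, sub_zero]
    rw [sum_eq_single j] at h2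
    · rcases mul_eq_zero.1 h2 with h | h
      · funext i
        by_cases hi : i = j
        · rw [hi]; exact sub_eq_zero.1 h
        · exact hne i hi
      · exact absurd h hj
    · intro i _ hi
      rw [hne i hi, sub_self, zero_mul]
    · intro h; exact absurd (mem_univ _) h
  refine h1.trans_eq ?_
  rw [card_univ, Fintype.card_fun, ZMod.card, Fintype.card_subtype_compl,
    Fintype.card_subtype_eq, Fintype.card_fin]

/-- the sublattice of `ℤ ^ d` given by a linear form modulo `p` -/
def Lat {d : ℕ} (p : ℕ) (a : Fin d → ℤ) (x : Fin d → ℤ) : Prop := (p : ℤ) ∣ ∑ i, a i * x i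

/-- **A sublattice without short vectors.** -/
theorem exists_lattice {d T : ℕ} (hd : 1 ≤ d) (hT : d ≤ T) :
    ∃ (p : ℕ) (a : Fin d → ℤ), p.Prime ∧ (p : ℝ) ≤ 2 * (Real.exp 1 * (4 * T / d)) ^ d ∧
      ∀ x : Fin d → ℤ, Lat p a x → l1 x ≤ T → x = 0 := by
  classical
  have hN0 : (cross d T).card ≠ 0 := by
    have := lt_card_cross (T := T) hd
    omega
  obtain ⟨p, hp, hNp, hpN⟩ := Nat.exists_prime_lt_and_le_two_mul (cross d T).card hN0
  have : Fact p.Prime := ⟨hp⟩
  have hTp : T < p := (lt_card_cross hd).trans hNp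
  have hred : ∀ x ∈ (cross d T).erase 0, (fun i => ((x i : ℤ) : ZMod p)) ≠ 0 := by
    intro x hx h
    rw [mem_erase, mem_cross] at hx
    apply hx.1
    funext i
    have h1 : ((x i : ℤ) : ZMod p) = 0 := congrFun h i
    rw [ZMod.intCast_zmod_eq_zero_iff_dvd] at h1
    apply Int.eq_zero_of_abs_lt_dvd h1
    have h2 : (x i).natAbs ≤ T := by
      refine le_trans ?_ hx.2
      exact single_le_sum (f := fun i => (x i).natAbs) (fun i _ => Nat.zero_le _) (mem_univ i)
    rw [Int.abs_eq_natAbs]
    exact_mod_cast lt_of_le_of_lt h2 hTp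
  have hbad : (((cross d T).erase 0).biUnion fun x =>
      (univ : Finset (Fin d → ZMod p)).filter fun a => ∑ i, a i * ((x i : ℤ) : ZMod p) = 0).card <
      (univ : Finset (Fin d → ZMod p)).card := by
    calc _ ≤ ∑ x ∈ (cross d T).erase 0, ((univ : Finset (Fin d → ZMod p)).filter
            fun a => ∑ i, a i * ((x i : ℤ) : ZMod p) = 0).card := card_biUnion_le
      _ ≤ ∑ _x ∈ (cross d T).erase 0, p ^ (d - 1) :=
          sum_le_sum (fun x hx => card_forms _ (hred x hx))
      _ = ((cross d T).erase 0).card * p ^ (d - 1) := by rw [sum_const, smul_eq_mul]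
      _ < p * p ^ (d - 1) := by
          apply Nat.mul_lt_mul_of_pos_right _ (Nat.pow_pos hp.pos)
          exact lt_of_le_of_lt (card_le_card (erase_subset _ _)) hNp
      _ = p ^ d := by
          rw [← pow_succ']
          congr 1
          omega
      _ = _ := by rw [card_univ, Fintype.card_fun, ZMod.card, Fintype.card_fin]
  obtain ⟨a, -, ha⟩ := exists_mem_notMem_of_card_lt_card hbad
  refine ⟨p, fun i => ((a i).val : ℤ), hp, ?_, ?_⟩
  · have h1 := card_cross hd hT
    have h2 : (p : ℝ) ≤ 2 * (cross d T).card := by exact_mod_cast hpN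
    linarith
  · intro x hx hxT
    by_contra hx0
    apply ha
    rw [mem_biUnion]
    refine ⟨x, mem_erase.2 ⟨hx0, mem_cross.2 hxT⟩, ?_⟩
    rw [mem_filter]
    refine ⟨mem_univ _, ?_⟩
    unfold Lat at hx
    have h1 := (ZMod.intCast_zmod_eq_zero_iff_dvd _ p).2 hx
    push_cast at h1
    simpa using h1

end Pool.Agent.Q248.GP.Neg
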