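import Pool.Agent.Q248.GP.N

/-! # No long progression of any rank in the iterated sumsets -/

set_option autoImplicit false

namespace Pool.Agent.Q248.GP.Neg

open Finset
open scoped Pointwise

variable {d : ℕ}

theorem Lat.add {p : ℕ} {a x y : Fin d → ℤ} (hx : Lat p a x) (hy : Lat p a y) :
    Lat p a (x + y) := by
  unfold Lat at *
  have : ∑ i, a i * (x + y) i = ∑ i, a i * x i + ∑ i, a i * y i := by
    rw [← sum_add_distrib]
    exact sum_congr rfl (fun i _ => by rw [Pi.add_apply, mul_add])
  rw [this]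
  exact dvd_add hx hy

theorem Lat.sub {p : ℕ} {a x y : Fin d → ℤ} (hx : Lat p a x) (hy : Lat p a y) :
    Lat p a (x - y) := by
  unfold Lat at *
  have : ∑ i, a i * (x - y) i = ∑ i, a i * x i - ∑ i, a i * y i := by
    rw [← sum_sub_distrib]
    exact sum_congr rfl (fun i _ => by rw [Pi.sub_apply, mul_sub])
  rw [this]
  exact dvd_sub hx hy

theorem Lat.zero {p : ℕ} {a : Fin d → ℤ} : Lat p a 0 := by
  unfold Lat
  simp

theorem Lat.sum {p : ℕ} {a : Fin d → ℤ} {ι : Type*} (s : Finset ι) (f : ι → Fin d → ℤ)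
    (h : ∀ i ∈ s, Lat p a (f i)) : Lat p a (∑ i ∈ s, f i) := by
  classical
  induction s using Finset.induction_on with
  | empty => rw [sum_empty]; exact Lat.zero
  | insert i s hi ih =>
    rw [sum_insert hi]
    exact (h i (mem_insert_self _ _)).add (ih fun j hj => h j (mem_insert_of_mem hj))

instance (p : ℕ) (a : Fin d → ℤ) : DecidablePred (Lat p a) := fun x =>
  inferInstanceAs (Decidable ((p : ℤ) ∣ ∑ i, a i * x i))

/-- the points of the sublattice in the cube `[-R, R] ^ d` -/
noncomputable def pts (p : ℕ) (a : Fin d → ℤ) (R : ℕ) : Finset (Fin d → ℤ) :=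
  (Fintype.piFinset fun _ : Fin d => Icc (-(R : ℤ)) R).filter (Lat p a)

theorem mem_pts {p : ℕ} {a : Fin d → ℤ} {R : ℕ} {x : Fin d → ℤ} :
    x ∈ pts p a R ↔ (∀ i, |x i| ≤ R) ∧ (p : ℤ) ∣ ∑ i, a i * x i := by
  unfold pts
  rw [mem_filter, Fintype.mem_piFinset]
  simp only [mem_Icc, abs_le]
  rfl

/-- a set with all differences in the set of points is not larger -/
theorem card_le_pts {p : ℕ} {a : Fin d → ℤ} {R : ℕ} (S : Finset (Fin d → ℤ))
    (h : ∀ x ∈ S, ∀ y ∈ S, x - y ∈ pts p a R) : S.card ≤ (pts p a R).card := by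
  rcases S.eq_empty_or_nonempty with rfl | ⟨y, hy⟩
  · simp
  · exact card_le_card_of_injOn (fun x => x - y) (fun x hx => h x hx y hy)
      (fun x _ z _ hxz => sub_left_injective hxz)

theorem pts_doubling (p : ℕ) (a : Fin d → ℤ) (R : ℕ) :
    (pts p a R + pts p a R).card ≤ 4 ^ d * (pts p a R).card := by
  classical
  have h := card_le_mul_card_image_of_maps_to (s := pts p a R + pts p a R)
    (t := Fintype.piFinset fun _ : Fin d => Icc (0 : ℤ) 3)
    (f := fun (x : Fin d → ℤ) (i : Fin d) => (x i + 2 * (R : ℤ)) / ((R : ℤ) + 1)) (Hf := by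
      intro x hx
      obtain ⟨y, hy, z, hz, rfl⟩ := mem_add.1 hx
      rw [Fintype.mem_piFinset]
      intro i
      have h1 := abs_le.1 ((mem_pts.1 hy).1 i)
      have h2 := abs_le.1 ((mem_pts.1 hz).1 i)
      rw [mem_Icc]
      constructor
      · apply Int.ediv_nonneg
        · rw [Pi.add_apply]; linarith
        · positivity
      · apply Int.le_of_lt_add_one
        apply Int.ediv_lt_of_lt_mul (by positivity)
        rw [Pi.add_apply]
        nlinarith) (pts p a R).card (by
      intro e _
      apply card_le_pts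
      intro x hx y hy
      rw [mem_filter] at hx hy
      obtain ⟨x1, hx1, x2, hx2, ex⟩ := mem_add.1 hx.1
      obtain ⟨y1, hy1, y2, hy2, ey⟩ := mem_add.1 hy.1
      rw [mem_pts]
      constructor
      · intro i
        have h1 : (x i + 2 * (R : ℤ)) / ((R : ℤ) + 1) = e i := congrFun hx.2 i
        have h2 : (y i + 2 * (R : ℤ)) / ((R : ℤ) + 1) = e i := congrFun hy.2 i
        have hR : (0 : ℤ) < R + 1 := by positivity
        have h3 := Int.emod_add_mul_ediv (x i + 2 * R) (R + 1)
        have h4 := Int.emod_add_mul_ediv (y i + 2 * R) (R + 1)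
        have h5 := Int.emod_nonneg (x i + 2 * R) hR.ne'
        have h6 := Int.emod_nonneg (y i + 2 * R) hR.ne'
        have h7 := Int.emod_lt_of_pos (x i + 2 * R) hR
        have h8 := Int.emod_lt_of_pos (y i + 2 * R) hR
        rw [h1] at h3
        rw [h2] at h4
        rw [abs_le, Pi.sub_apply]
        constructor <;> linarith
      · have hL : Lat p a (x - y) := by
          rw [← ex, ← ey]
          exact (Lat.add (mem_pts.1 hx1).2 (mem_pts.1 hx2).2).sub
            (Lat.add (mem_pts.1 hy1).2 (mem_pts.1 hy2).2)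
        exact hL)
  refine h.trans_eq ?_
  rw [Fintype.card_piFinset, prod_const, card_univ, Fintype.card_fin, mul_comm]
  congr 1

theorem pts_lower {p : ℕ} (hp : p.Prime) (a : Fin d → ℤ) (R : ℕ) :
    (R + 1) ^ d ≤ p * (pts p a R).card := by
  classical
  have : NeZero p := ⟨hp.ne_zero⟩
  have h := card_le_mul_card_image_of_maps_to
    (s := Fintype.piFinset fun _ : Fin d => Icc (0 : ℤ) R)
    (t := (univ : Finset (ZMod p)))
    (f := fun x => ((∑ i, a i * x i : ℤ) : ZMod p)) (Hf := fun _ _ => mem_univ _)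
    (pts p a R).card (by
      intro e _
      apply card_le_pts
      intro x hx y hy
      rw [mem_filter, Fintype.mem_piFinset] at hx hy
      rw [mem_pts]
      constructor
      · intro i
        have h1 := mem_Icc.1 (hx.1 i)
        have h2 := mem_Icc.1 (hy.1 i)
        rw [abs_le, Pi.sub_apply]
        constructor <;> linarith
      · rw [← ZMod.intCast_zmod_eq_zero_iff_dvd]
        have : ∑ i, a i * (x - y) i = ∑ i, a i * x i - ∑ i, a i * y i := by
          rw [← sum_sub_distrib]
          exact sum_congr rfl (fun i _ => by rw [Pi.sub_apply, mul_sub])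
        rw [this, Int.cast_sub, hx.2, hy.2, sub_self])
  rw [Fintype.card_piFinset, prod_const, card_univ, Fintype.card_fin, card_univ, ZMod.card,
    Int.card_Icc] at h
  calc (R + 1) ^ d = ((R : ℤ) + 1 - 0).toNat ^ d := by congr 1
    _ ≤ _ := h
    _ = _ := mul_comm _ _

/-- **Progressions inside a translate of `[-2kR, 2kR] ^ d ∩ Λ`.** -/
theorem prog_small {p k R : ℕ} {a : Fin d → ℤ} (hk : 1 ≤ k) (hR : 1 ≤ R)
    (hshort : ∀ x : Fin d → ℤ, Lat p a x → l1 x ≤ 4 * k * R → x = 0)
    {r : ℕ} (x₀ b : Fin d → ℤ) (v : Fin r → Fin d → ℤ) (N : Fin r → ℕ) (hN : ∀ i, 1 ≤ N i)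
    (hin : ∀ n : Fin r → ℕ, (∀ i, n i < N i) →
      (∀ j, |(b + ∑ i, n i • v i - x₀) j| ≤ 2 * k * R) ∧ Lat p a (b + ∑ i, n i • v i - x₀)) :
    ({x | ∃ n : Fin r → ℕ, (∀ i, n i < N i) ∧ x = b + ∑ i, n i • v i} :
      Set (Fin d → ℤ)).ncard ≤ 2 ^ d := by
  classical
  -- width in each coordinate
  have hwidth : ∀ j : Fin d, ∑ i, ((N i : ℤ) - 1) * |v i j| ≤ 4 * k * R := by
    intro j
    obtain ⟨h1, -⟩ := hin (fun i => if 0 < v i j then N i - 1 else 0) (fun i => by
      have := hN i
      split_ifs <;> omega)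
    obtain ⟨h2, -⟩ := hin (fun i => if v i j < 0 then N i - 1 else 0) (fun i => by
      have := hN i
      split_ifs <;> omega)
    have h3 := (abs_le.1 (h1 j)).2
    have h4 := (abs_le.1 (h2 j)).1
    simp only [Pi.sub_apply, Pi.add_apply, Finset.sum_apply, Pi.smul_apply] at h3 h4
    simp only [nsmul_eq_mul] at h3 h4
    have h5 : ∑ i, ((N i : ℤ) - 1) * |v i j| =
        ∑ i, ((if 0 < v i j then N i - 1 else 0 : ℕ) : ℤ) * v i j -
        ∑ i, ((if v i j < 0 then N i - 1 else 0 : ℕ) : ℤ) * v i j := by
      rw [← sum_sub_distrib]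
      refine sum_congr rfl (fun i _ => ?_)
      have hNi := hN i
      have e : ((N i - 1 : ℕ) : ℤ) = (N i : ℤ) - 1 := by omega
      rcases lt_trichotomy (v i j) 0 with h | h | h
      · rw [if_neg (by omega), if_pos h, abs_of_neg h, e]
        push_cast
        ring
      · rw [h]; simp
      · rw [if_pos h, if_neg (by omega), abs_of_pos h, e]
        push_cast
        ring
    rw [h5]
    linarith
  -- the steps are long
  have hlong : ∀ i, 2 ≤ N i → v i ≠ 0 → 4 * k * R < l1 (v i) := by
    intro i hi hv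
    by_contra hcon
    push Not at hcon
    apply hv
    apply hshort _ _ hcon
    obtain ⟨-, h1⟩ := hin (Pi.single i 1) (fun j => by
      by_cases hj : j = i
      · rw [hj, Pi.single_eq_same]; omega
      · rw [Pi.single_eq_of_ne hj]; exact hN j)
    obtain ⟨-, h2⟩ := hin (fun _ => 0) (fun j => hN j)
    have h3 := h1.sub h2
    have h4 : ∑ j, (Pi.single i 1 : Fin r → ℕ) j • v j = v i := by
      rw [sum_eq_single i]
      · rw [Pi.single_eq_same, one_smul]
      · intro j _ hj
        rw [Pi.single_eq_of_ne hj, zero_smul]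
      · intro h; exact absurd (mem_univ _) h
    have h5 : b + ∑ j, (Pi.single i 1 : Fin r → ℕ) j • v j - x₀ -
        (b + ∑ j : Fin r, (0 : ℕ) • v j - x₀) = v i := by
      rw [h4]
      simp
    rwa [h5] at h3
  obtain ⟨M, hM⟩ : ∃ M : Fin r → ℕ, M = fun i => if v i = 0 then 1 else N i := ⟨_, rfl⟩
  have hM1 : ∀ i, 1 ≤ M i := by
    intro i
    rw [hM]
    have := hN i
    simp only
    split_ifs <;> omega
  have hkR : 0 < 4 * k * R := by positivity
  have hsum : ∑ i, (M i - 1) ≤ d := by
    have h1 : (4 * k * R : ℤ) * ∑ i, ((M i : ℤ) - 1) ≤ 4 * k * R * d := by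
      calc (4 * k * R : ℤ) * ∑ i, ((M i : ℤ) - 1)
          = ∑ i, (4 * k * R : ℤ) * ((M i : ℤ) - 1) := by rw [mul_sum]
        _ ≤ ∑ i, ((N i : ℤ) - 1) * (l1 (v i) : ℤ) := by
            refine sum_le_sum (fun i _ => ?_)
            have hNi : (1 : ℤ) ≤ N i := by exact_mod_cast hN i
            by_cases hv : v i = 0
            · have : M i = 1 := by rw [hM]; simp [hv]
              rw [this]
              simp only [Nat.cast_one, sub_self, mul_zero]
              apply mul_nonneg (by linarith) (by positivity)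
            · have hMi : M i = N i := by rw [hM]; simp [hv]
              rw [hMi]
              rcases Nat.lt_or_ge (N i) 2 with h2 | h2
              · have : N i = 1 := by
                  have := hN i
                  omega
                rw [this]
                simp
              · have h3 := hlong i h2 hv
                have h4 : (4 * k * R : ℤ) ≤ (l1 (v i) : ℤ) := by exact_mod_cast h3.le
                calc (4 * k * R : ℤ) * ((N i : ℤ) - 1) ≤ (l1 (v i) : ℤ) * ((N i : ℤ) - 1) :=
                      mul_le_mul_of_nonneg_right h4 (by linarith)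
                  _ = _ := mul_comm _ _
        _ = ∑ j, ∑ i, ((N i : ℤ) - 1) * |v i j| := by
            rw [sum_comm]
            refine sum_congr rfl (fun i _ => ?_)
            unfold l1
            push_cast
            rw [mul_sum]
        _ ≤ ∑ _j : Fin d, (4 * k * R : ℤ) := sum_le_sum (fun j _ => hwidth j)
        _ = _ := by
            rw [sum_const, card_univ, Fintype.card_fin, nsmul_eq_mul]
            ring
    have h2 : ∑ i, ((M i : ℤ) - 1) ≤ d := by
      have hpos : (0 : ℤ) < 4 * k * R := by exact_mod_cast hkR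
      exact le_of_mul_le_mul_left h1 hpos
    have h3 : ((∑ i, (M i - 1) : ℕ) : ℤ) = ∑ i, ((M i : ℤ) - 1) := by
      push_cast
      refine sum_congr rfl (fun i _ => ?_)
      have := hM1 i
      omega
    rw [← h3] at h2
    exact_mod_cast h2
  have hprod : ∏ i, M i ≤ 2 ^ d := by
    calc ∏ i, M i ≤ ∏ i, 2 ^ (M i - 1) := by
          apply prod_le_prod' (fun i _ => ?_)
          have h1 := hM1 i
          have h2 : M i - 1 < 2 ^ (M i - 1) := Nat.lt_two_pow_self
          omega
      _ = 2 ^ ∑ i, (M i - 1) := by rw [prod_pow_eq_pow_sum]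
      _ ≤ 2 ^ d := Nat.pow_le_pow_right (by norm_num) hsum
  have hsub : ({x | ∃ n : Fin r → ℕ, (∀ i, n i < N i) ∧ x = b + ∑ i, n i • v i} :
      Set (Fin d → ℤ)) ⊆ (((Fintype.piFinset fun i => range (M i)).image
        (fun n : Fin r → ℕ => b + ∑ i, n i • v i) : Finset (Fin d → ℤ)) : Set (Fin d → ℤ)) := by
    rintro x ⟨n, hn, rfl⟩
    rw [mem_coe, mem_image]
    refine ⟨fun i => if v i = 0 then 0 else n i, ?_, ?_⟩
    · rw [Fintype.mem_piFinset]
      intro i
      rw [mem_range, hM]
      simp only
      split_ifs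
      · exact Nat.one_pos
      · exact hn i
    · congr 1
      refine sum_congr rfl (fun i _ => ?_)
      show (if v i = 0 then 0 else n i) • v i = n i • v i
      by_cases hv : v i = 0
      · rw [if_pos hv, hv, smul_zero, smul_zero]
      · rw [if_neg hv]
  calc _ ≤ (((Fintype.piFinset fun i => range (M i)).image
        (fun n : Fin r → ℕ => b + ∑ i, n i • v i) : Finset (Fin d → ℤ)) : Set (Fin d → ℤ)).ncard :=
        Set.ncard_le_ncard hsub (Finset.finite_toSet _)
    _ ≤ (Fintype.piFinset fun i => range (M i)).card := by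
        rw [Set.ncard_coe_finset]
        exact card_image_le
    _ = ∏ i, M i := by
        rw [Fintype.card_piFinset]
        simp only [card_range]
    _ ≤ 2 ^ d := hprod

end Pool.Agent.Q248.GP.Neg
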