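import Pool.Agent.Q248.GP.P

/-! # The example in the integers -/

set_option autoImplicit false

namespace Pool.Agent.Q248.GP.Neg

open Finset
open scoped Pointwise

/-- expansions with small digits are unique -/
theorem base_inj (B : ℕ) : ∀ (d : ℕ) (x : Fin d → ℤ), (∀ i, |x i| ≤ B) →
    ∑ i, x i * (2 * B + 1 : ℤ) ^ (i : ℕ) = 0 → x = 0 := by
  intro d
  induction d with
  | zero => intro x _ _; funext i; exact i.elim0
  | succ d ih =>
    intro x hx h
    rw [Fin.sum_univ_succ] at h
    have h1 : ∑ i : Fin d, x i.succ * (2 * B + 1 : ℤ) ^ ((i.succ : Fin (d + 1)) : ℕ) =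
        (2 * B + 1 : ℤ) * ∑ i : Fin d, x i.succ * (2 * B + 1 : ℤ) ^ (i : ℕ) := by
      rw [mul_sum]
      refine sum_congr rfl (fun i _ => ?_)
      rw [Fin.val_succ, pow_succ]
      ring
    rw [h1] at h
    simp only [Fin.val_zero, pow_zero, mul_one] at h
    have h2 : (2 * B + 1 : ℤ) ∣ x 0 :=
      ⟨-∑ i : Fin d, x i.succ * (2 * B + 1 : ℤ) ^ (i : ℕ), by linarith⟩
    have h3 : x 0 = 0 := by
      apply Int.eq_zero_of_abs_lt_dvd h2
      have := hx 0
      have hB : (0 : ℤ) ≤ B := by positivity
      linarith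
    rw [h3, zero_add] at h
    have h4 : (2 * B + 1 : ℤ) ≠ 0 := by positivity
    have h5 := ih (fun i => x i.succ) (fun i => hx _) ((mul_eq_zero.1 h).resolve_left h4)
    funext i
    refine Fin.cases ?_ (fun j => ?_) i
    · exact h3
    · exact congrFun h5 j

/-- the homomorphism to the integers -/
def toZ (B : ℕ) {d : ℕ} : (Fin d → ℤ) →+ ℤ where
  toFun x := ∑ i, x i * (2 * B + 1 : ℤ) ^ (i : ℕ)
  map_zero' := by simp
  map_add' x y := by
    rw [← sum_add_distrib]
    exact sum_congr rfl (fun i _ => by rw [Pi.add_apply, add_mul])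

theorem toZ_inj (B : ℕ) {d : ℕ} {x : Fin d → ℤ} (hx : ∀ i, |x i| ≤ B) (h : toZ B x = 0) :
    x = 0 := base_inj B d x hx h

/-- **The example in the integers.** -/
theorem exists_int {d k R : ℕ} (hd : 1 ≤ d) (hk : 1 ≤ k) (hR : d ≤ R) :
    ∃ A : Finset ℤ, A.Nonempty ∧ (A + A).card ≤ 4 ^ d * A.card ∧
      ((R + 1) * d / (16 * Real.exp 1 * k * R) : ℝ) ^ d ≤ 2 * A.card ∧
      ∀ (r : ℕ) (x₀ b : ℤ) (v : Fin r → ℤ) (N : Fin r → ℕ), (∀ i, 1 ≤ N i) →
        (∀ n : Fin r → ℕ, (∀ i, n i < N i) → ∃ s t : Fin k → ℤ, (∀ i, s i ∈ A) ∧ (∀ i, t i ∈ A) ∧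
          b + ∑ i, n i • v i = x₀ + ∑ i, s i - ∑ i, t i) →
        ({x | ∃ n : Fin r → ℕ, (∀ i, n i < N i) ∧ x = b + ∑ i, n i • v i} : Set ℤ).ncard ≤
          2 ^ d := by
  classical
  have hR1 : 1 ≤ R := hd.trans hR
  have hT : d ≤ 4 * k * R := by nlinarith
  obtain ⟨p, a, hp, hpb, hshort⟩ := exists_lattice hd hT
  have h0 : (0 : Fin d → ℤ) ∈ pts p a R := by
    rw [mem_pts]
    exact ⟨fun i => by simp, by simp⟩
  obtain ⟨B, hB⟩ : ∃ B : ℕ, B = 8 * k * R := ⟨_, rfl⟩
  have hinj : Set.InjOn (toZ B) (pts p a R : Set (Fin d → ℤ)) := by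
    intro x hx y hy hxy
    have hx' := (mem_pts.1 (mem_coe.1 hx)).1
    have hy' := (mem_pts.1 (mem_coe.1 hy)).1
    have h1 : x - y = 0 := by
      apply toZ_inj B
      · intro i
        have h2 := abs_le.1 (hx' i)
        have h3 := abs_le.1 (hy' i)
        have h4 : (2 * R : ℤ) ≤ B := by
          rw [hB]
          push_cast
          have : (1 : ℤ) ≤ k := by exact_mod_cast hk
          nlinarith [(by positivity : (0 : ℤ) ≤ R)]
        rw [abs_le, Pi.sub_apply]
        constructor <;> linarith
      · rw [map_sub, hxy, sub_self]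
    exact sub_eq_zero.1 h1
  have hcard : ((pts p a R).image (toZ B)).card = (pts p a R).card := card_image_of_injOn hinj
  refine ⟨(pts p a R).image (toZ B), ⟨_, mem_image_of_mem _ h0⟩, ?_, ?_, ?_⟩
  · rw [hcard, ← image_add]
    exact card_image_le.trans (pts_doubling p a R)
  · rw [hcard]
    have h1 : ((R : ℝ) + 1) ^ d ≤ p * (pts p a R).card := by exact_mod_cast pts_lower hp a R
    have hA0 : (0 : ℝ) ≤ (pts p a R).card := Nat.cast_nonneg _
    have hd0 : (0 : ℝ) < d := by exact_mod_cast hd
    have hk0 : (0 : ℝ) < k := by exact_mod_cast hk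
    have hR0 : (0 : ℝ) < R := by exact_mod_cast hR1
    have h2 : ((R : ℝ) + 1) ^ d ≤
        (Real.exp 1 * (4 * (4 * k * R : ℕ) / d)) ^ d * (2 * (pts p a R).card) := by
      calc ((R : ℝ) + 1) ^ d ≤ p * (pts p a R).card := h1
        _ ≤ (2 * (Real.exp 1 * (4 * (4 * k * R : ℕ) / d)) ^ d) * (pts p a R).card :=
            mul_le_mul_of_nonneg_right hpb hA0
        _ = _ := by ring
    have hq : 0 < Real.exp 1 * (4 * (4 * k * R : ℕ) / d) := by
      have : (0 : ℝ) < (4 * k * R : ℕ) := by
        have : 0 < 4 * k * R := by positivity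
        exact_mod_cast this
      positivity
    have h3 : ((R + 1) * d / (16 * Real.exp 1 * k * R) : ℝ) =
        (R + 1) / (Real.exp 1 * (4 * (4 * k * R : ℕ) / d)) := by
      push_cast
      field_simp
      ring
    rw [h3, div_pow, div_le_iff₀ (pow_pos hq d)]
    linarith
  · intro r x₀ b v N hN hin
    -- lifts
    have hlift : ∀ n : Fin r → ℕ, (∀ i, n i < N i) → ∃ z : Fin d → ℤ,
        (∀ j, |z j| ≤ 2 * k * R) ∧ Lat p a z ∧ toZ B z = b + ∑ i, n i • v i - x₀ := by
      intro n hn
      obtain ⟨s, t, hs, ht, e⟩ := hin n hn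
      have hs' : ∀ i, ∃ y ∈ pts p a R, toZ B y = s i := fun i => mem_image.1 (hs i)
      have ht' : ∀ i, ∃ y ∈ pts p a R, toZ B y = t i := fun i => mem_image.1 (ht i)
      choose s' hs1 hs2 using hs'
      choose t' ht1 ht2 using ht'
      refine ⟨∑ i, s' i - ∑ i, t' i, ?_, ?_, ?_⟩
      · intro j
        have h1 : |(∑ i, s' i) j| ≤ k * R := by
          rw [Finset.sum_apply]
          calc |∑ i, s' i j| ≤ ∑ i, |s' i j| := abs_sum_le_sum_abs _ _
            _ ≤ ∑ _i : Fin k, (R : ℤ) := sum_le_sum (fun i _ => (mem_pts.1 (hs1 i)).1 j)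
            _ = _ := by rw [sum_const, card_univ, Fintype.card_fin, nsmul_eq_mul]
        have h2 : |(∑ i, t' i) j| ≤ k * R := by
          rw [Finset.sum_apply]
          calc |∑ i, t' i j| ≤ ∑ i, |t' i j| := abs_sum_le_sum_abs _ _
            _ ≤ ∑ _i : Fin k, (R : ℤ) := sum_le_sum (fun i _ => (mem_pts.1 (ht1 i)).1 j)
            _ = _ := by rw [sum_const, card_univ, Fintype.card_fin, nsmul_eq_mul]
        rw [Pi.sub_apply]
        calc |(∑ i, s' i) j - (∑ i, t' i) j| ≤ |(∑ i, s' i) j| + |(∑ i, t' i) j| := abs_sub _ _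
          _ ≤ _ := by linarith
      · exact (Lat.sum _ _ (fun i _ => (mem_pts.1 (hs1 i)).2)).sub
          (Lat.sum _ _ (fun i _ => (mem_pts.1 (ht1 i)).2))
      · rw [map_sub, map_sum, map_sum, e]
        simp only [hs2, ht2]
        ring
    choose z hz1 hz2 hz3 using hlift
    obtain ⟨n0, hn0⟩ : ∃ n0 : Fin r → ℕ, n0 = fun _ => 0 := ⟨_, rfl⟩
    have hn0N : ∀ i, n0 i < N i := fun i => by rw [hn0]; exact hN i
    have hsN : ∀ i, 2 ≤ N i → ∀ j, (Pi.single i 1 : Fin r → ℕ) j < N j := by
      intro i hi j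
      by_cases hj : j = i
      · rw [hj, Pi.single_eq_same]; omega
      · rw [Pi.single_eq_of_ne hj]; exact hN j
    obtain ⟨w, hw⟩ : ∃ w : Fin r → Fin d → ℤ, w = fun i => if h : 2 ≤ N i then
      z (Pi.single i 1) (hsN i h) - z n0 hn0N else 0 := ⟨_, rfl⟩
    have hmain : ∀ (m : ℕ) (n : Fin r → ℕ) (hn : ∀ i, n i < N i), ∑ i, n i = m →
        z n hn = z n0 hn0N + ∑ i, n i • w i := by
      intro m
      induction m with
      | zero =>
        intro n hn hm
        have h1 : n = n0 := by
          rw [hn0]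
          funext i
          exact (sum_eq_zero_iff.1 hm) i (mem_univ i)
        subst h1
        have : ∑ i, n i • w i = 0 := by
          apply sum_eq_zero
          intro i _
          rw [hn0, zero_smul]
        rw [this, add_zero]
      | succ m ih =>
        intro n hn hm
        obtain ⟨i, hi⟩ : ∃ i, n i ≠ 0 := by
          by_contra hcon
          push Not at hcon
          rw [sum_eq_zero (fun i _ => hcon i)] at hm
          omega
        obtain ⟨n', hn'⟩ : ∃ n' : Fin r → ℕ, n' = fun j => n j - (Pi.single i 1 : Fin r → ℕ) j :=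
          ⟨_, rfl⟩
        have hnn : ∀ j, n j = n' j + (Pi.single i 1 : Fin r → ℕ) j := by
          intro j
          rw [hn']
          by_cases hj : j = i
          · subst hj
            simp only [Pi.single_eq_same]
            omega
          · simp [Pi.single_eq_of_ne hj]
        have hn'N : ∀ j, n' j < N j := by
          intro j
          have h1 := hn j
          have h2 := hnn j
          omega
        have hi2 : 2 ≤ N i := by
          have := hn i
          omega
        have hm' : ∑ j, n' j = m := by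
          have h1 : ∑ j, n j = ∑ j, n' j + ∑ j, (Pi.single i 1 : Fin r → ℕ) j := by
            rw [← sum_add_distrib]
            exact sum_congr rfl (fun j _ => hnn j)
          have h2 : ∑ j, (Pi.single i 1 : Fin r → ℕ) j = 1 := by
            rw [sum_eq_single i]
            · rw [Pi.single_eq_same]
            · intro j _ hj
              rw [Pi.single_eq_of_ne hj]
            · intro h; exact absurd (mem_univ _) h
          omega
        have hwi : w i = z (Pi.single i 1) (hsN i hi2) - z n0 hn0N := by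
          rw [hw]
          simp only
          rw [dif_pos hi2]
        have hsingle : ∑ j, (Pi.single i 1 : Fin r → ℕ) j • w j = w i := by
          rw [sum_eq_single i]
          · rw [Pi.single_eq_same, one_smul]
          · intro j _ hj
            rw [Pi.single_eq_of_ne hj, zero_smul]
          · intro h; exact absurd (mem_univ _) h
        have hsingle' : ∑ j, (Pi.single i 1 : Fin r → ℕ) j • v j = v i := by
          rw [sum_eq_single i]
          · rw [Pi.single_eq_same, one_smul]
          · intro j _ hj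
            rw [Pi.single_eq_of_ne hj, zero_smul]
          · intro h; exact absurd (mem_univ _) h
        have hker : z n hn - z n' hn'N - (z (Pi.single i 1) (hsN i hi2) - z n0 hn0N) = 0 := by
          apply toZ_inj B
          · intro j
            have h1 := abs_le.1 (hz1 n hn j)
            have h2 := abs_le.1 (hz1 n' hn'N j)
            have h3 := abs_le.1 (hz1 (Pi.single i 1) (hsN i hi2) j)
            have h4 := abs_le.1 (hz1 n0 hn0N j)
            rw [hB, abs_le]
            simp only [Pi.sub_apply]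
            push_cast
            constructor <;> linarith
          · rw [map_sub, map_sub, map_sub, hz3, hz3, hz3, hz3, hsingle']
            have h1 : ∑ j, n j • v j = ∑ j, n' j • v j + v i := by
              rw [← hsingle', ← sum_add_distrib]
              refine sum_congr rfl (fun j _ => ?_)
              rw [← add_smul, ← hnn j]
            have h2 : ∑ j, n0 j • v j = 0 := by
              apply sum_eq_zero
              intro j _
              rw [hn0, zero_smul]
            rw [h1, h2]
            ring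
        have h5 : ∑ j, n j • w j = ∑ j, n' j • w j + w i := by
          rw [← hsingle, ← sum_add_distrib]
          refine sum_congr rfl (fun j _ => ?_)
          rw [← add_smul, ← hnn j]
        have h6 := ih n' hn'N hm'
        have h7 : z n hn = z n' hn'N + w i := by
          rw [hwi]
          rw [sub_sub, sub_eq_zero] at hker
          exact hker
        rw [h7, h6, h5, add_assoc]
    have hsmall := prog_small (b := z n0 hn0N) (x₀ := 0) (v := w) (N := N) hk hR1 hshort hN
      (by
        intro n hn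
        have h1 := hmain _ n hn rfl
        rw [sub_zero, ← h1]
        exact ⟨hz1 n hn, hz2 n hn⟩)
    have himg : ({x | ∃ n : Fin r → ℕ, (∀ i, n i < N i) ∧ x = b + ∑ i, n i • v i} : Set ℤ) ⊆
        (fun y => toZ B y + x₀) '' {x | ∃ n : Fin r → ℕ, (∀ i, n i < N i) ∧
          x = z n0 hn0N + ∑ i, n i • w i} := by
      rintro x ⟨n, hn, rfl⟩
      refine ⟨z n hn, ⟨n, hn, hmain _ n hn rfl⟩, ?_⟩
      simp only
      rw [hz3]
      ring
    have hfin : ({x | ∃ n : Fin r → ℕ, (∀ i, n i < N i) ∧
          x = z n0 hn0N + ∑ i, n i • w i} : Set (Fin d → ℤ)).Finite := by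
      have : ({x | ∃ n : Fin r → ℕ, (∀ i, n i < N i) ∧
          x = z n0 hn0N + ∑ i, n i • w i} : Set (Fin d → ℤ)) ⊆
          (((Fintype.piFinset fun i => range (N i)).image
            (fun n : Fin r → ℕ => z n0 hn0N + ∑ i, n i • w i) : Finset (Fin d → ℤ)) :
            Set (Fin d → ℤ)) := by
        rintro x ⟨n, hn, rfl⟩
        rw [mem_coe, mem_image]
        exact ⟨n, by rw [Fintype.mem_piFinset]; exact fun i => mem_range.2 (hn i), rfl⟩
      exact (Finset.finite_toSet _).subset this
    calc _ ≤ ((fun y => toZ B y + x₀) '' {x | ∃ n : Fin r → ℕ, (∀ i, n i < N i) ∧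
          x = z n0 hn0N + ∑ i, n i • w i}).ncard := Set.ncard_le_ncard himg (hfin.image _)
      _ ≤ _ := Set.ncard_image_le hfin
      _ ≤ 2 ^ d := hsmall

end Pool.Agent.Q248.GP.Neg
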